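import Pool.Agent.Lib.MP_021282_al.Limit

/-! # A minimal non-pseudocentral group that is not minimal non-abelian -/

set_option autoImplicit false

namespace Pool.Agent.Results.MP_021282_al.PseudocentralMonster

open Pool.Agent.Lib.MP_021282_al

/-- There is a finitely generated torsion free group which is minimal non-pseudocentral but not
minimal non-abelian. -/
theorem result : ∃ (G : Type) (_ : Group G), Group.FG G ∧ (∀ g : G, IsOfFinOrder g → g = 1) ∧
    IsMinimalNonPseudocentral G ∧ ¬ IsMinimalNonAbelian G :=
  exists_group

end Pool.Agent.Results.MP_021282_al.PseudocentralMonster
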